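import Mathlib

/-! Spectral gaps through the characteristic polynomial. -/

namespace Pool.Agent.Q260.PK

variable {ι : Type} [Fintype ι] [DecidableEq ι]

/-- The eigenvalues of `M` (the real roots of the characteristic polynomial, with multiplicity)
in nonincreasing order. -/
noncomputable def eigs (M : Matrix ι ι ℝ) : List ℝ := M.charpoly.roots.sort (· ≥ ·)

/-- `λ₁ - λ₂`. -/
noncomputable def gap (M : Matrix ι ι ℝ) : ℝ := (eigs M).getD 0 0 - (eigs M).getD 1 0

lemma root_iff (M : Matrix ι ι ℝ) (μ : ℝ) :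
    μ ∈ M.charpoly.roots ↔ ∃ v : ι → ℝ, v ≠ 0 ∧ M.mulVec v = μ • v := by
  rw [Polynomial.mem_roots (Matrix.charpoly_monic M).ne_zero, Polynomial.IsRoot,
    Matrix.eval_charpoly, ← Matrix.exists_mulVec_eq_zero_iff]
  constructor
  · rintro ⟨v, hv, h⟩
    refine ⟨v, hv, ?_⟩
    rw [Matrix.sub_mulVec, sub_eq_zero] at h
    rw [← h]
    ext i
    simp [Matrix.scalar_apply, Matrix.mulVec_diagonal]
  · rintro ⟨v, hv, h⟩
    refine ⟨v, hv, ?_⟩
    rw [Matrix.sub_mulVec, sub_eq_zero, h]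
    ext i
    simp [Matrix.scalar_apply, Matrix.mulVec_diagonal]

lemma gap_ge (M : Matrix ι ι ℝ) (a c : ℝ) (t : Multiset ℝ) (h : M.charpoly.roots = a ::ₘ t)
    (hc : 0 ≤ c) (hca : c ≤ a) (ht : ∀ x ∈ t, x ≤ c) : a - c ≤ gap M := by
  unfold gap eigs
  rw [h, Multiset.sort_cons a t (· ≥ ·) (fun b hb => (ht b hb).trans hca)]
  simp only [List.getD_cons_zero, List.getD_cons_succ]
  have h2 : (t.sort (· ≥ ·)).getD 0 0 ≤ c := by
    rcases hs : t.sort (· ≥ ·) with _ | ⟨b, l⟩
    · simpa using hc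
    · simp only [List.getD_cons_zero]
      apply ht
      rw [← Multiset.mem_sort (r := (· ≥ ·)), hs]
      exact List.mem_cons_self
  linarith

lemma gap_le (M : Matrix ι ι ℝ) (a b : ℝ) (hab : b < a) (ha : a ∈ M.charpoly.roots)
    (hb : b ∈ M.charpoly.roots) (hmax : ∀ x ∈ M.charpoly.roots, x ≤ a) : gap M ≤ a - b := by
  unfold gap eigs
  obtain ⟨t, ht⟩ := Multiset.exists_cons_of_mem ha
  have hbt : b ∈ t := by
    rw [ht, Multiset.mem_cons] at hb
    rcases hb with hb | hb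
    · exact absurd hb hab.ne
    · exact hb
  have h2 : ∀ x ∈ t, a ≥ x := fun x hx => hmax x (by rw [ht]; exact Multiset.mem_cons_of_mem hx)
  rw [ht, Multiset.sort_cons a t (· ≥ ·) h2]
  simp only [List.getD_cons_zero, List.getD_cons_succ]
  have h3 : b ≤ (t.sort (· ≥ ·)).getD 0 0 := by
    have hm : b ∈ t.sort (· ≥ ·) := by rw [Multiset.mem_sort]; exact hbt
    have hp : (t.sort (· ≥ ·)).Pairwise (· ≥ ·) := Multiset.pairwise_sort _ _
    rcases hs : t.sort (· ≥ ·) with _ | ⟨c, l⟩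
    · rw [hs] at hm
      simp at hm
    · simp only [List.getD_cons_zero]
      rw [hs] at hm hp
      rcases List.mem_cons.1 hm with h | h
      · exact h.le
      · exact (List.pairwise_cons.1 hp).1 b h
  linarith

lemma charpoly_conj {κ : Type} [Fintype κ] [DecidableEq κ] (hcard : Fintype.card κ = Fintype.card ι)
    (Q : Matrix ι ι ℝ) (T : Matrix κ κ ℝ) (S : Matrix ι κ ℝ) (S' : Matrix κ ι ℝ)
    (h1 : Q * S = S * T) (h2 : S * S' = 1) : Q.charpoly = T.charpoly := by
  have h3 : S' * S = 1 := by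
    rw [Matrix.mul_eq_one_comm_of_card_eq]
    · exact h2
    · exact hcard
  have h4 : Q = S * (T * S') := by
    rw [← Matrix.mul_assoc, ← h1, Matrix.mul_assoc, h2, Matrix.mul_one]
  have h5 := Matrix.charpoly_mul_comm' S (T * S')
  rw [Matrix.mul_assoc, h3, Matrix.mul_one, ← h4, hcard] at h5
  exact mul_left_cancel₀ (pow_ne_zero _ Polynomial.X_ne_zero) h5

lemma charpoly_blockDiagonal {o κ : Type} [Fintype o] [DecidableEq o] [Fintype κ] [DecidableEq κ]
    (T : o → Matrix κ κ ℝ) : (Matrix.blockDiagonal T).charpoly = ∏ k, (T k).charpoly := by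
  unfold Matrix.charpoly
  rw [← Matrix.det_blockDiagonal]
  congr 1
  ext ⟨i, k⟩ ⟨j, l⟩ : 2
  rw [Matrix.blockDiagonal_apply]
  by_cases hkl : k = l
  · subst hkl
    by_cases hij : i = j
    · subst hij
      simp [Matrix.charmatrix_apply_eq, Matrix.blockDiagonal_apply]
    · have : (i, k) ≠ (j, k) := fun h => hij (Prod.ext_iff.1 h).1
      simp [Matrix.charmatrix_apply_ne _ _ _ this, Matrix.charmatrix_apply_ne _ _ _ hij,
        Matrix.blockDiagonal_apply]
  · have : (i, k) ≠ (j, l) := fun h => hkl (Prod.ext_iff.1 h).2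
    simp [Matrix.charmatrix_apply_ne _ _ _ this, hkl, Matrix.blockDiagonal_apply]

end Pool.Agent.Q260.PK
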